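import Pool.Agent.Y910.F.Stm2

/-!
Project FC part 2 (helper910), job FK-FIN (by helper383): finitely many real subfields of a number
field.
-/

set_option autoImplicit false

namespace Pool.Agent.Y383.FK

theorem done : Pool.Agent.Y910.F.StFIN := by
  intro K hK
  have hfin : ∀ inst : Algebra ℚ K, Finite (@IntermediateField ℚ K _ _ inst) := by
    intro inst
    obtain rfl : inst = IntermediateField.algebra' K := Subsingleton.elim _ _
    exact Field.finite_intermediateField_of_exists_primitive_element ℚ K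
      (Field.exists_primitive_element ℚ K)
  set φ : ℝ →ₐ[ℚ] ℂ := IsScalarTower.toAlgHom ℚ ℝ ℂ with hφ
  have hφx : ∀ x : ℝ, φ x = (x : ℂ) := fun x => rfl
  have key : ∀ k : IntermediateField ℚ ℝ, (∀ z ∈ k, (z : ℂ) ∈ K) → ∀ z : ℝ, z ∈ k ↔
      ∃ h : (z : ℂ) ∈ K, (⟨(z : ℂ), h⟩ : K) ∈ (k.map φ).comap K.val := by
    intro k hk z
    constructor
    · intro hz
      exact ⟨hk z hz, (⟨z, hz, rfl⟩ : (z : ℂ) ∈ k.map φ)⟩
    · rintro ⟨h, h1⟩
      have h2 : (z : ℂ) ∈ k.map φ := h1
      obtain ⟨y, hy, hyz⟩ := h2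
      have h3 : y = z := Complex.ofReal_injective hyz
      rw [← h3]
      exact hy
  have hfin' := hfin (IntermediateField.algebra' K)
  refine Set.Finite.of_finite_image (f := fun k : IntermediateField ℚ ℝ =>
    (k.map φ).comap K.val) (@Set.toFinite _ _ (@Subtype.finite _ (hfin _) _)) ?_
  intro k hk k' hk' h
  ext z
  simp only at h
  rw [key k hk z, key k' hk' z, h]

end Pool.Agent.Y383.FK
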